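import Mathlib
import Pool.Agent.Helper59.ZO.Base

/-!
# Insertion of a class in a symmetric class
-/

universe u v w t

open CategoryTheory

namespace Pool.Agent.Helper59.ZO

open Pool.Agent.Helper10 SmProjVar

variable {k : Type u} [Field k]

/-- the components of the morphism to a power -/
lemma liftPow_projPow {X Z : SmProjVar k} (p : ℕ → (Z.toOver ⟶ X.toOver)) :
    ∀ (n j : ℕ), j ≤ n → liftPow p n ≫ X.projPow n j = p j := by
  intro n
  induction n with
  | zero =>
    intro j hj
    obtain rfl : j = 0 := by omega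
    exact Category.comp_id _
  | succ n ih =>
    intro j hj
    by_cases h : j = n + 1
    · subst h
      have h1 : X.projPow (n + 1) (n + 1) = snd (X.selfProd n) X := if_pos rfl
      rw [h1]
      exact lift_snd _ _
    · have h1 : X.projPow (n + 1) j = fst (X.selfProd n) X ≫ X.projPow n j := if_neg h
      rw [h1]
      exact (lift_fst_assoc _ _ _).trans (ih j (by omega))

/-- morphisms to a power with the same components are equal -/
lemma hom_ext_pow {X Z : SmProjVar k} : ∀ (n : ℕ) {f g : Z.toOver ⟶ (X.selfProd n).toOver},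
    (∀ j ≤ n, f ≫ X.projPow n j = g ≫ X.projPow n j) → f = g := by
  intro n
  induction n with
  | zero =>
    intro f g h
    have h1 := h 0 le_rfl
    exact ((Category.comp_id f).symm.trans h1).trans (Category.comp_id g)
  | succ n ih =>
    intro f g h
    refine hom_ext (ih fun j hj => ?_) ?_
    · have h1 : X.projPow (n + 1) j = fst (X.selfProd n) X ≫ X.projPow n j :=
        if_neg (by omega)
      have h2 := h j (by omega)
      rw [h1] at h2
      exact ((Category.assoc f (fst (X.selfProd n) X) (X.projPow n j)).trans h2).trans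
        (Category.assoc g (fst (X.selfProd n) X) (X.projPow n j)).symm
    · have h1 : X.projPow (n + 1) (n + 1) = snd (X.selfProd n) X := if_pos rfl
      have h2 := h (n + 1) le_rfl
      rw [h1] at h2
      exact h2

lemma forget_projPow (X : SmProjVar k) (n i j : ℕ) (hj : j ≤ n) :
    forget X n i ≫ X.projPow n j = X.projPow (n + 1) (if j < i then j else j + 1) :=
  liftPow_projPow (fun j => X.projPow (n + 1) (if j < i then j else j + 1)) n j hj

/-- a permutation induces a permutation of the complements -/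
lemma exists_perm {n : ℕ} (σ : Equiv.Perm (Fin (n + 2))) (i : Fin (n + 2)) :
    ∃ τ : Equiv.Perm (Fin (n + 1)), ∀ j, σ (i.succAbove j) = (σ i).succAbove (τ j) := by
  let e : {x : Fin (n + 2) // x ≠ i} ≃ {x : Fin (n + 2) // x ≠ σ i} :=
    σ.subtypeEquiv fun x => by rw [ne_eq, ne_eq, σ.injective.eq_iff]
  refine ⟨(finSuccAboveEquiv i).trans (e.trans (finSuccAboveEquiv (σ i)).symm),
    fun j => ?_⟩
  have h1 : ∀ y : {x : Fin (n + 2) // x ≠ σ i},
      (σ i).succAbove ((finSuccAboveEquiv (σ i)).symm y) = y := fun y =>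
    congrArg Subtype.val ((finSuccAboveEquiv (σ i)).apply_symm_apply y)
  exact (h1 (e ((finSuccAboveEquiv i) j))).symm

lemma coe_succAbove {n : ℕ} (i : Fin (n + 2)) (j : Fin (n + 1)) :
    ((i.succAbove j : Fin (n + 2)) : ℕ) = if (j : ℕ) < (i : ℕ) then (j : ℕ) else (j : ℕ) + 1 := by
  rw [Fin.succAbove]
  by_cases h : (j : ℕ) < (i : ℕ)
  · rw [if_pos h, if_pos (show j.castSucc < i from h)]
    rfl
  · rw [if_neg h, if_neg (show ¬ j.castSucc < i from h)]
    rfl

/-- permuting the factors, and forgetting one -/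
lemma exists_perm_forget (X : SmProjVar k) (n : ℕ)
    {f : (X.selfProd (n + 1)).toOver ⟶ (X.selfProd (n + 1)).toOver}
    {σ : Equiv.Perm (Fin (n + 2))}
    (hf : ∀ j : Fin (n + 2), f ≫ X.projPow (n + 1) j = X.projPow (n + 1) (σ j))
    (i : Fin (n + 2)) :
    ∃ g, PermutesFactors X n g ∧ f ≫ forget X n i = forget X n (σ i) ≫ g := by
  obtain ⟨τ, hτ⟩ := exists_perm σ i
  have hg : ∀ j : Fin (n + 1), liftPow (fun j => X.projPow n
      (if h : j < n + 1 then ((τ ⟨j, h⟩ : Fin (n + 1)) : ℕ) else 0)) n ≫ X.projPow n j =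
        X.projPow n (τ j) := by
    intro j
    rw [liftPow_projPow _ n j (by omega), dif_pos j.2]
  refine ⟨_, ⟨τ, hg⟩, hom_ext_pow n fun j hj => ?_⟩
  have hj' : j < n + 1 := by omega
  have h1 := forget_projPow X n i j hj
  have h2 := hf (i.succAbove ⟨j, hj'⟩)
  rw [hτ, coe_succAbove, coe_succAbove] at h2
  have h3 := hg ⟨j, hj'⟩
  rw [Category.assoc, Category.assoc, h1, h3]
  refine h2.trans ?_
  exact (forget_projPow X n (σ i) (τ ⟨j, hj'⟩) (by omega)).symm

variable {Ω : Type v} [Field Ω] {K' : Type t} [Field K'] [Algebra K' Ω]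

/-- insertion of a class preserves symmetric classes -/
theorem ins_inv (P : SPre.{u, v, w, t} k K' Ω) (X : SmProjVar k) (n : ℕ) (z : P.H X)
    {u : P.H (X.selfProd n)} (hu : ∀ f, PermutesFactors X n f → P.pull f u = u) :
    ∀ f, PermutesFactors X (n + 1) f → P.pull f (ins P X n z u) = ins P X n z u := by
  rintro f ⟨σ, hf⟩
  have h1 : ∀ i : Fin (n + 2), P.pull f (P.pull (X.projPow (n + 1) i) z *
      P.pull (forget X n i) u) = P.pull (X.projPow (n + 1) (σ i)) z *
        P.pull (forget X n (σ i)) u := by
    intro i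
    obtain ⟨g, hg, hfg⟩ := exists_perm_forget X n hf i
    have h2 : P.pull f (P.pull (X.projPow (n + 1) i) z) = P.pull (X.projPow (n + 1) (σ i)) z := by
      rw [← hf, P.pull_comp]
      rfl
    have h3 : P.pull f (P.pull (forget X n i) u) = P.pull (forget X n (σ i)) u := by
      have h4 : P.pull f (P.pull (forget X n i) u) = P.pull (f ≫ forget X n i) u := by
        rw [P.pull_comp]
        rfl
      have h5 : P.pull (forget X n (σ i) ≫ g) u = P.pull (forget X n (σ i)) (P.pull g u) := by
        rw [P.pull_comp]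
        rfl
      rw [h4, hfg, h5, hu g hg]
    rw [map_mul, h2, h3]
  unfold ins
  rw [map_sum, Finset.sum_range fun i => P.pull f (P.pull (X.projPow (n + 1) i) z *
    P.pull (forget X n i) u), Finset.sum_range fun i => P.pull (X.projPow (n + 1) i) z *
    P.pull (forget X n i) u, Finset.sum_congr rfl fun i _ => h1 i]
  exact Equiv.sum_comp σ fun i : Fin (n + 2) => P.pull (X.projPow (n + 1) i) z *
    P.pull (forget X n i) u

theorem symInvariant_ins {K : Type v} [Field K] [CharZero K] (W : WeilCohomology.{u, v, w} k K)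
    {X : SmProjVar k} {n : ℕ} (z : W.H X) {u : W.H (X.selfProd n)}
    (hu : SymInvariant W.toCohomologyData X n u) :
    SymInvariant W.toCohomologyData X (n + 1) (ins (base W) X n z u) := fun f hf =>
  ins_inv (base W) X n z (fun g hg => hu g hg) f hf

end Pool.Agent.Helper59.ZO
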