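import Mathlib
import Pool.Agent.Helper59.ZO.Defs
import Pool.Agent.Helper11.Frobenius

/-!
# Tate classes on symmetric powers: definitions
-/

universe u v w

open CategoryTheory

namespace Pool.Agent.Helper59.ZO

open Pool.Agent.Helper10 Pool.Agent.Helper11 SmProjVar

variable {k : Type u} [Field k] [Finite k] {K : Type v} [Field K]
  (W : CohomologyData.{u, v, w} k K)

/-- The class `u` in `H^{2 j}(Y)` is a Tate class: `(F - q ^ j) ^ N` is zero on it for some `N`,
where `F` is the Frobenius endomorphism over the field `k` with `q` elements. -/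
def IsTate (Y : SmProjVar k) (j : ℕ) (u : W.H Y) : Prop :=
  u ∈ W.gr Y (2 * j) ∧ ∃ N : ℕ,
    (fun y => W.pull (frob Y) y - (Nat.card k : K) ^ j • y)^[N] u = 0

/-- The span of the Tate classes in `H(X ^ (n + 1))` which are invariant under the permutations of
the factors. -/
noncomputable def tateSpan (X : SmProjVar k) (n : ℕ) : Submodule K (W.H (X.selfProd n)) :=
  Submodule.span K {u : W.H (X.selfProd n) | SymInvariant W X n u ∧ ∃ j, IsTate W _ j u}

/-- The dimension over `K` of the space of Tate classes on the symmetric power `Sym ^ m X`. -/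
noncomputable def tateRank (X : SmProjVar k) : ℕ → ℕ
  | 0 => 1
  | n + 1 => Module.finrank K (tateSpan W X n)

end Pool.Agent.Helper59.ZO
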