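import Mathlib
import Pool.Agent.Helper11.ZO.Tate
import Pool.Agent.Helper11.Zt.Sym

/-!
# Tate classes on symmetric powers
-/

universe u v w

open CategoryTheory Finset

namespace Pool.Agent.Helper59.ZO

open Pool.Agent.Helper10 Pool.Agent.Helper11 SmProjVar

section Linear

variable {K : Type*} [Field K] {M : Type*} [AddCommGroup M] [Module K M] [Module.Finite K M]

/-- orthogonal subspaces for a pairing which is non-degenerate on `T` -/
lemma finrank_add_le {N A T : Submodule K M} (B : M →ₗ[K] M →ₗ[K] K) (hNT : N ≤ T) (hAT : A ≤ T)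
    (h0 : ∀ x ∈ N, ∀ y ∈ A, B x y = 0) (hB : ∀ x ∈ T, (∀ y ∈ T, B x y = 0) → x = 0) :
    Module.finrank K A + Module.finrank K N ≤ Module.finrank K T := by
  let A' : Submodule K T := A.comap T.subtype
  have hA : Module.finrank K A' = Module.finrank K A :=
    LinearEquiv.finrank_eq (Submodule.comapSubtypeEquivOfLe hAT)
  let φ : N →ₗ[K] Module.Dual K T :=
    { toFun := fun x => (B (x : M)).comp T.subtype
      map_add' := fun x y => by
        rw [Submodule.coe_add, map_add, LinearMap.add_comp]
      map_smul' := fun a x => by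
        rw [Submodule.coe_smul, map_smul, LinearMap.smul_comp, RingHom.id_apply] }
  have hφ : ∀ x y, φ x y = B x y := fun x y => rfl
  have hinj : Function.Injective φ := by
    rw [← LinearMap.ker_eq_bot, LinearMap.ker_eq_bot']
    intro x hx
    refine Subtype.ext (hB x (hNT x.2) fun y hy => ?_)
    have h1 := LinearMap.congr_fun hx ⟨y, hy⟩
    rwa [hφ] at h1
  have hr : LinearMap.range φ ≤ A'.dualAnnihilator := by
    rintro _ ⟨x, rfl⟩
    rw [Submodule.mem_dualAnnihilator]
    intro y hy
    exact h0 x x.2 y hy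
  have h1 := LinearMap.finrank_range_of_inj hinj
  have h2 := Submodule.finrank_mono hr
  have h3 := Subspace.finrank_add_finrank_dualAnnihilator_eq A'
  omega

end Linear

section Components

variable {k : Type u} [Field k] {K : Type v} [Field K] [CharZero K]
  (W : WeilCohomology.{u, v, w} k K) {X : SmProjVar k}

/-- homogeneous elements with sum zero -/
lemma eq_zero_of_sum {n : ℕ} {y : ℕ → W.H X} (hy : ∀ j, y j ∈ W.gr X (2 * j))
    (h : ∑ j ∈ range n, y j = 0) : ∀ j ∈ range n, y j = 0 := by
  intro j hj
  have h1 : y j = -∑ i ∈ (range n).erase j, y i := by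
    rw [eq_neg_iff_add_eq_zero, add_sum_erase _ _ hj, h]
  have h2 : y j ∈ ⨆ i ≠ 2 * j, W.gr X i := by
    rw [h1]
    refine Submodule.neg_mem _ (Submodule.sum_mem _ fun i hi => ?_)
    have hij : 2 * i ≠ 2 * j := fun h => (mem_erase.mp hi).1 (by omega)
    exact Submodule.mem_iSup_of_mem (2 * i) (Submodule.mem_iSup_of_mem hij (hy i))
  exact Submodule.disjoint_def.mp ((W.graded X).indep (2 * j)) _ (hy j) h2

/-- the components of a combination of classes of cycles -/
lemma exists_parts {z : W.H X} (hz : z ∈ W.algClasses X) :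
    ∃ y : ℕ → W.H X, (∀ j, y j ∈ Submodule.span K {u | ∃ c : X.Z j, u = W.cy X j c}) ∧
      z = ∑ j ∈ range (X.dim + 1), y j := by
  unfold CohomologyData.algClasses at hz
  induction hz using Submodule.span_induction with
  | mem z hz =>
    obtain ⟨j, c, rfl⟩ := hz
    refine ⟨fun i => if i = j then W.cy X j c else 0, fun i => ?_, ?_⟩
    · by_cases h : i = j
      · subst h
        exact Submodule.subset_span ⟨c, by simp⟩
      · have h0 : (fun i => if i = j then W.cy X j c else 0) i = 0 := if_neg h
        rw [h0]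
        exact Submodule.zero_mem _
    · rw [sum_ite_eq' (range (X.dim + 1)) j fun _ => W.cy X j c]
      split_ifs with h
      · rfl
      · have h1 := W.cycleClasses.cy_mem X j c
        rw [mem_range, not_lt] at h
        rw [(W.graded X).eq_bot (2 * j) (by omega)] at h1
        exact (Submodule.mem_bot K).mp h1
  | zero => exact ⟨fun _ => 0, fun _ => Submodule.zero_mem _, by rw [sum_const_zero]⟩
  | add a a' _ _ ha ha' =>
    obtain ⟨y, hy, rfl⟩ := ha
    obtain ⟨y', hy', rfl⟩ := ha'
    exact ⟨fun j => y j + y' j, fun j => Submodule.add_mem _ (hy j) (hy' j), by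
      rw [sum_add_distrib]⟩
  | smul a x _ hx =>
    obtain ⟨y, hy, rfl⟩ := hx
    exact ⟨fun j => a • y j, fun j => Submodule.smul_mem _ _ (hy j), by rw [smul_sum]⟩

lemma mem_gr_of_mem {j : ℕ} {y : W.H X}
    (hy : y ∈ Submodule.span K {u | ∃ c : X.Z j, u = W.cy X j c}) : y ∈ W.gr X (2 * j) := by
  refine Submodule.span_le.mpr ?_ hy
  rintro _ ⟨c, rfl⟩
  exact W.cycleClasses.cy_mem X j c

variable [Finite k]

lemma pull_frob_of_mem {j : ℕ} {y : W.H X}
    (hy : y ∈ Submodule.span K {u | ∃ c : X.Z j, u = W.cy X j c}) :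
    W.pullA (frob X) y = (Nat.card k : K) ^ j • y := by
  induction hy using Submodule.span_induction with
  | mem y hy =>
    obtain ⟨c, rfl⟩ := hy
    exact Zt.pull_frob_cy W X j c
  | zero => rw [map_zero, smul_zero]
  | add a b _ _ ha hb => rw [map_add, ha, hb, smul_add]
  | smul a x _ hx => rw [map_smul, hx, smul_comm]

/-- (T1) symmetric algebraic classes are combinations of symmetric Tate classes -/
theorem alg_le_tateSpan (X : SmProjVar k) (n : ℕ) :
    Submodule.span K {u : W.H (X.selfProd n) | u ∈ W.algClasses (X.selfProd n) ∧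
      SymInvariant W.toCohomologyData X n u} ≤ tateSpan W.toCohomologyData X n := by
  refine Submodule.span_le.mpr ?_
  rintro z ⟨hz, hs⟩
  obtain ⟨y, hy, hzy⟩ := exists_parts W hz
  have h1 : ∀ f, PermutesFactors X n f → ∀ j ∈ range ((X.selfProd n).dim + 1),
      W.pullA f (y j) - y j = 0 := by
    intro f hf
    refine eq_zero_of_sum W (y := fun j => W.pullA f (y j) - y j) (fun j => ?_) ?_
    · exact Submodule.sub_mem _ ((W.pull_hom f).map_mem _ _ (mem_gr_of_mem W (hy j)))
        (mem_gr_of_mem W (hy j))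
    · rw [sum_sub_distrib, ← map_sum, ← hzy]
      exact sub_eq_zero.mpr (hs f hf)
  rw [hzy]
  refine Submodule.sum_mem _ fun j hj => Submodule.subset_span ⟨fun f hf => ?_, j,
    mem_gr_of_mem W (hy j), 1, ?_⟩
  · exact sub_eq_zero.mp (h1 f hf j hj)
  · rw [Function.iterate_one]
    exact sub_eq_zero.mpr (pull_frob_of_mem W (hy j))

end Components

end Pool.Agent.Helper59.ZO
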