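import Mathlib
import Pool.Agent.Helper59.ZO.Defs

/-!
# Bounds for the ranks on symmetric powers
-/

universe u v w

open CategoryTheory

namespace Pool.Agent.Helper59.ZO

open Pool.Agent.Helper10 SmProjVar

variable {k : Type u} [Field k] {K : Type v} [Field K]

/-- The sum `n(0) + n(1) + ⋯ + n(m)` of the numerical ranks. -/
noncomputable def sumNum (W : CohomologyData.{u, v, w} k K) (X : SmProjVar k) (m : ℕ) : ℕ :=
  ∑ i ∈ Finset.range (m + 1), numRank W X i

/-- The numerically non-trivial classes of cycles on the symmetric powers of `X` are few among all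
classes of cycles: `a(m) + n(m + 1) ≤ a(m + 1)` and `(l + 1) n(m) ≤ a(m + l)` for all `m`, `l`. -/
structure FewInHom (W : CohomologyData.{u, v, w} k K) (X : SmProjVar k) : Prop where
  add_le : ∀ m, homRank W X m + numRank W X (m + 1) ≤ homRank W X (m + 1)
  mul_le : ∀ m l, (l + 1) * numRank W X m ≤ homRank W X (m + l)

/-- The subspace `T` of `H(X ^ (n + 1))` contains the combinations of classes of algebraic cycles
which are invariant under the permutations of the factors, and the Poincaré duality pairing is
non-degenerate on `T`. -/
structure IsEnvelope (W : CohomologyData.{u, v, w} k K) (X : SmProjVar k) (n : ℕ)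
    (T : Submodule K (W.H (X.selfProd n))) : Prop where
  le : symClasses W X n ≤ T
  nondeg : ∀ u ∈ T, (∀ v ∈ T, W.pairing (X.selfProd n) u v = 0) → u = 0

/-- The numerically non-trivial classes of cycles on the symmetric powers of `X` are few in
comparison with the number `t`: `n(m) + 2 (n(0) + ⋯ + n(m - 1)) ≤ t` for `m = n + 1`, and
`(2 l + 1) n(m) ≤ t` if `m + l = n + 1`. -/
structure FewIn (W : CohomologyData.{u, v, w} k K) (X : SmProjVar k) (n t : ℕ) : Prop where
  add_le : numRank W X (n + 1) + 2 * sumNum W X n ≤ t
  mul_le : ∀ m l, m + l = n + 1 → (2 * l + 1) * numRank W X m ≤ t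

end Pool.Agent.Helper59.ZO
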