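import Mathlib
import Pool.Agent.Helper59.ZO.Final
import Pool.Agent.Helper11.ZO.TateThm

/-!
# Algebraic classes in a non-degenerate subspace
-/

universe u v w

open CategoryTheory

namespace Pool.Agent.Helper59.ZO

open Pool.Agent.Helper10 Pool.Agent.Helper11 SmProjVar

variable {k : Type u} [Field k] {K : Type v} [Field K] [CharZero K]
  (W : WeilCohomology.{u, v, w} k K) {X : SmProjVar k}

/-- Symmetric algebraic classes are orthogonal to the numerically trivial ones. -/
theorem two_mul_homRank_le {n : ℕ} {T : Submodule K (W.H (X.selfProd n))}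
    (hT : symAlg W X n ≤ T)
    (hnd : ∀ x ∈ T, (∀ y ∈ T, W.trL (X.selfProd n) (x * y) = 0) → x = 0) :
    2 * homRank W.toCohomologyData X (n + 1) ≤
      Module.finrank K T + numRank W.toCohomologyData X (n + 1) := by
  have hfin := Degen.finite_H W (X.selfProd n)
  have h1 := finrank_add_le (Degen.pairL W (X.selfProd n)) (N := symNull W X n)
    (A := symAlg W X n) (T := T) ((symNull_le W X n).trans hT) hT
    (fun x hx y hy => hx.2 y hy.1) (fun x hx h => hnd x hx h)
  have h2 := numRank_add W X n
  rw [homRank_succ] at h2 ⊢
  omega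

lemma symAlg_le_tateSpan [Finite k] (X : SmProjVar k) (n : ℕ) :
    symAlg W X n ≤ tateSpan W.toCohomologyData X n := fun _ hu =>
  alg_le_tateSpan W X n (Submodule.subset_span hu)

/-- the numerical ranks in terms of an upper bound for the homological rank -/
lemma numRank_add_le {n t : ℕ} (hT : 2 * homRank W.toCohomologyData X (n + 1) ≤
    t + numRank W.toCohomologyData X (n + 1)) (hD : ¬ W.StandardD X) :
    numRank W.toCohomologyData X (n + 1) +
      2 * ∑ i ∈ Finset.range (n + 1), numRank W.toCohomologyData X i ≤ t := by
  have h2 := homRank_add_numRank_le (insInv W X) hD n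
  have h3 := sum_numRank_le (insInv W X) hD n
  omega

lemma mul_numRank_le' {n t : ℕ} (hT : 2 * homRank W.toCohomologyData X (n + 1) ≤
    t + numRank W.toCohomologyData X (n + 1)) (hD : ¬ W.StandardD X) (m l : ℕ)
    (h : m + l = n + 1) :
    (2 * l + 1) * numRank W.toCohomologyData X m ≤ t := by
  have h1 := numRank_add_le W hT hD
  have h2 := numRank_monotone W X
  have h3 : l * numRank W.toCohomologyData X m ≤
      ∑ i ∈ Finset.range (n + 1), numRank W.toCohomologyData X i := by
    have h4 : ∑ i ∈ Finset.Ico m (m + l), numRank W.toCohomologyData X m ≤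
        ∑ i ∈ Finset.range (n + 1), numRank W.toCohomologyData X i := by
      refine (Finset.sum_le_sum fun i hi => h2 (Finset.mem_Ico.mp hi).1).trans ?_
      refine Finset.sum_le_sum_of_subset fun i hi => ?_
      rw [Finset.mem_range, ← h]
      exact (Finset.mem_Ico.mp hi).2
    refine le_trans (le_of_eq ?_) h4
    rw [Finset.sum_const, Nat.card_Ico, smul_eq_mul, Nat.add_sub_cancel_left]
  have h5 : numRank W.toCohomologyData X m ≤ numRank W.toCohomologyData X (n + 1) :=
    h2 (by omega)
  calc (2 * l + 1) * numRank W.toCohomologyData X m =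
      numRank W.toCohomologyData X m + 2 * (l * numRank W.toCohomologyData X m) := by ring
    _ ≤ numRank W.toCohomologyData X (n + 1) +
        2 * ∑ i ∈ Finset.range (n + 1), numRank W.toCohomologyData X i := by omega
    _ ≤ t := h1

end Pool.Agent.Helper59.ZO
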