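import Mathlib
import Pool.Agent.Helper11.ZO.Env
import Pool.Agent.Helper11.ZO.TateRank
import Pool.Agent.Helper10.ZO.Perfect

/-!
# The ranks on symmetric powers, if D fails
-/

universe u v w

open CategoryTheory

namespace Pool.Agent.Helper59.ZO

open Pool.Agent.Helper10 Pool.Agent.Helper11 SmProjVar

variable {k : Type u} [Field k] {K : Type v} [Field K] [CharZero K]
  (W : WeilCohomology.{u, v, w} k K) (X : SmProjVar k)

/-- the Tate classes on symmetric powers -/
theorem isEnvelope_tateSpan [Finite k] (n : ℕ) :
    IsEnvelope W.toCohomologyData X n (tateSpan W.toCohomologyData X n) where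
  le := (symClasses_eq W X n).trans_le (symAlg_le_tateSpan W X n)
  nondeg _ hu h := tateSpan_nondeg W X n hu h

variable {W X}

theorem two_mul_homRank_le_env {n : ℕ} {T : Submodule K (W.H (X.selfProd n))}
    (hT : IsEnvelope W.toCohomologyData X n T) :
    2 * homRank W.toCohomologyData X (n + 1) ≤
      Module.finrank K T + numRank W.toCohomologyData X (n + 1) :=
  two_mul_homRank_le W ((symClasses_eq W X n).symm.trans_le hT.le) hT.nondeg

theorem fewIn_of_not_standardD (hD : ¬ W.StandardD X) {n : ℕ}
    {T : Submodule K (W.H (X.selfProd n))} (hT : IsEnvelope W.toCohomologyData X n T) :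
    FewIn W.toCohomologyData X n (Module.finrank K T) where
  add_le := numRank_add_le W (two_mul_homRank_le_env hT) hD
  mul_le := mul_numRank_le' W (two_mul_homRank_le_env hT) hD

theorem fewInHom_of_not_standardD (hD : ¬ W.StandardD X) : FewInHom W.toCohomologyData X where
  add_le := homRank_add_numRank_le (insInv W X) hD
  mul_le := mul_numRank_le (insInv W X) (fun m => numRank_monotone W X (Nat.le_succ m)) hD

end Pool.Agent.Helper59.ZO
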